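import Mathlib

/-!
Varieties of associative algebras (not necessarily with a unit) over a field and their equality
problem.
-/

namespace Q222.EP

universe u v

section values

variable {A : Type v} [NonUnitalRing A]

/-- the product `x_i x_j x_k ⋯` for the nonempty word `i, j, k, ...` (first letter `i`, other
letters `w`) -/
def word (x : ℕ → A) (i : ℕ) (w : List ℕ) : A := w.foldl (fun s j => s * x j) (x i)

/-- A noncommutative polynomial without constant term with coefficients in `F` is given as a finite
list of terms (coefficient, nonempty word); this is its value at `x`. -/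
def evalF {F : Type u} [Field F] [Module F A] (x : ℕ → A) (f : List (F × ℕ × List ℕ)) : A :=
  (f.map fun t => t.1 • word x t.2.1 t.2.2).sum

/-- the product of a nonempty list -/
def prod1 : List A → A
  | [] => 0
  | a :: l => l.foldl (fun s b => s * b) a

/-- the value of the standard polynomial `s_n = ∑_σ sgn(σ) x_{σ(1)} ⋯ x_{σ(n)}` (`n ≥ 1`) -/
def stdVal (n : ℕ) (x : Fin n → A) : A :=
  ∑ σ : Equiv.Perm (Fin n), Equiv.Perm.sign σ • prod1 (List.ofFn fun i => x (σ i))

end values

/-- The code of a noncommutative polynomial without constant term with rational coefficients: a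
finite list of terms `(a / (b + 1)) x_i x_j x_k ⋯`, each coded as `((a, b), i, [j, k, ...])`. -/
abbrev Poly : Type := List ((ℤ × ℕ) × ℕ × List ℕ)

/-- the polynomial over the field `F` with the code `u` -/
def toF (F : Type u) [Field F] (u : Poly) : List (F × ℕ × List ℕ) :=
  u.map fun t => ((t.1.1 : F) / ((t.1.2 + 1 : ℕ) : F), t.2)

/-- `A` belongs to the variety `M(n)` generated by the matrix algebra `M_n(F)`: it satisfies all
identities of `M_n(F)`. -/
def InM (F : Type u) [Field F] (n : ℕ) (A : Type u) [NonUnitalRing A] [Module F A] : Prop :=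
  ∀ f : List (F × ℕ × List ℕ), (∀ y : ℕ → Matrix (Fin n) (Fin n) F, evalF y f = 0) →
    ∀ x : ℕ → A, evalF x f = 0

/-- `A` belongs to the variety `S(n)` defined by the standard identity of degree `n`. -/
def InS (n : ℕ) (A : Type u) [NonUnitalRing A] : Prop := ∀ x : Fin n → A, stdVal n x = 0

/-- The quasi-identity `u_1 = 0 ∧ ⋯ ∧ u_k = 0 → u = 0` (for all values of the variables) with the
code `([u_1, ..., u_k], u)` holds in the `F`-algebra `A`. -/
def Quasi (F : Type u) [Field F] (A : Type u) [NonUnitalRing A] [Module F A]
    (q : List Poly × Poly) : Prop :=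
  ∀ x : ℕ → A, (∀ v ∈ q.1, evalF x (toF F v) = 0) → evalF x (toF F q.2) = 0

/-- The quasi-identity holds in all algebras of the variety `M(n)`. -/
def HoldsM (F : Type u) [Field F] (n : ℕ) (q : List Poly × Poly) : Prop :=
  ∀ (A : Type u) [NonUnitalRing A] [Module F A] [IsScalarTower F A A] [SMulCommClass F A A],
    InM F n A → Quasi F A q

/-- The quasi-identity holds in all algebras of the variety `S(n)`. -/
def HoldsS (F : Type u) [Field F] (n : ℕ) (q : List Poly × Poly) : Prop :=
  ∀ (A : Type u) [NonUnitalRing A] [Module F A] [IsScalarTower F A A] [SMulCommClass F A A],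
    InS n A → Quasi F A q

end Q222.EP
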