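import Mathlib
import Pool.Agent.Q222.EP.Defs
import Pool.Agent.Helper707.Num

/-!
The quasi-identities which encode a generalised Collatz map, and their validity for halting numbers.
-/

namespace Q222.EP

open Pool.Agent.Helper707.Rel

universe u v w

section hom

variable {F : Type u} [Field F] {A : Type v} [NonUnitalRing A] [Module F A]
  {B : Type w} [NonUnitalRing B] [Module F B]

theorem map_word (φ : A →ₙₐ[F] B) (x : ℕ → A) (i : ℕ) (w : List ℕ) :
    φ (word x i w) = word (fun k => φ (x k)) i w := by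
  unfold word
  have : ∀ s : A, φ (w.foldl (fun s j => s * x j) s)
      = w.foldl (fun s j => s * φ (x j)) (φ s) := by
    induction w with
    | nil => intro s; rfl
    | cons j w ih => intro s; simp only [List.foldl_cons]; rw [ih, map_mul]
  exact this _

theorem map_evalF (φ : A →ₙₐ[F] B) (x : ℕ → A) (f : List (F × ℕ × List ℕ)) :
    φ (evalF x f) = evalF (fun k => φ (x k)) f := by
  unfold evalF
  rw [map_list_sum, List.map_map]
  congr 1
  refine List.map_congr_left fun t _ => ?_
  simp only [Function.comp_apply, map_smul, map_word]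

end hom

section unital

variable {B : Type v} [Ring B]

theorem foldl_eq (x : ℕ → B) (w : List ℕ) (s : B) :
    w.foldl (fun s j => s * x j) s = s * (w.map x).prod := by
  induction w generalizing s with
  | nil => simp
  | cons j w ih => simp only [List.foldl_cons, List.map_cons, List.prod_cons]; rw [ih, mul_assoc]

theorem word_eq (x : ℕ → B) (i : ℕ) (w : List ℕ) : word x i w = ((i :: w).map x).prod := by
  unfold word
  rw [foldl_eq, List.map_cons, List.prod_cons]

/-- a term with coefficient `s` -/
def term (s : ℤ) (l : List ℕ) : (ℤ × ℕ) × ℕ × List ℕ := ((s, 0), l.headI, l.tail)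

variable (F : Type u) [Field F] [Algebra F B]

theorem evalF_one (x : ℕ → B) {l : List ℕ} (hl : l ≠ []) :
    evalF x (toF F [term 1 l]) = (l.map x).prod := by
  obtain ⟨i, w, rfl⟩ := List.exists_cons_of_ne_nil hl
  simp [evalF, toF, term, word_eq]

theorem evalF_two (x : ℕ → B) {l l' : List ℕ} (hl : l ≠ []) (hl' : l' ≠ []) :
    evalF x (toF F [term 1 l, term (-1) l']) = (l.map x).prod - (l'.map x).prod := by
  obtain ⟨i, w, rfl⟩ := List.exists_cons_of_ne_nil hl
  obtain ⟨i', w', rfl⟩ := List.exists_cons_of_ne_nil hl'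
  simp [evalF, toF, term, word_eq, sub_eq_add_neg]

/-- the relations -/
structure Rels (Y : Sys) (x : ℕ → B) : Prop where
  R1 : x 1 ^ Y.m * x 4 = x 4 * x 2
  R2 : ∀ i < Y.m, Y.H i = false → x 0 * x 1 ^ i * x 4 = x 0 * x (5 + i)
  R2' : ∀ i < Y.m, Y.H i = true → x 0 * x 1 ^ i * x 4 = 0
  R3 : ∀ i < Y.m, x (5 + i) * x 2 = x 1 ^ Y.a i * x (5 + i)
  R4 : ∀ i < Y.m, x (5 + i) * x 3 = x 1 ^ Y.e i * x 4 * x 3

/-- the codes of the relations -/
def relsCode (Y : Sys) : List Poly :=
  [term 1 (List.replicate Y.m 1 ++ [4]), term (-1) [4, 2]] ::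
  ((List.range Y.m).map (fun i => if Y.H i then [term 1 (0 :: (List.replicate i 1 ++ [4]))]
      else [term 1 (0 :: (List.replicate i 1 ++ [4])), term (-1) [0, 5 + i]]) ++
  (List.range Y.m).map (fun i => [term 1 [5 + i, 2],
      term (-1) (List.replicate (Y.a i) 1 ++ [5 + i])]) ++
  (List.range Y.m).map (fun i => [term 1 [5 + i, 3],
      term (-1) (List.replicate (Y.e i) 1 ++ [4, 3])]))

/-- the code of the target -/
def target (N : ℕ) : Poly := [term 1 (0 :: (List.replicate N 1 ++ [4, 3]))]

theorem eval_target (x : ℕ → B) (N : ℕ) :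
    evalF x (toF F (target N)) = x 0 * x 1 ^ N * x 4 * x 3 := by
  rw [target, evalF_one F x (by simp)]
  simp [mul_assoc]

theorem rels_iff (Y : Sys) (x : ℕ → B) :
    (∀ v ∈ relsCode Y, evalF x (toF F v) = 0) ↔ Rels Y x := by
  have e1 : evalF x (toF F [term 1 (List.replicate Y.m 1 ++ [4]), term (-1) [4, 2]])
      = x 1 ^ Y.m * x 4 - x 4 * x 2 := by
    rw [evalF_two F x (by simp) (by simp)]; simp
  have e2 : ∀ i, evalF x (toF F [term 1 (0 :: (List.replicate i 1 ++ [4])), term (-1) [0, 5 + i]])
      = x 0 * x 1 ^ i * x 4 - x 0 * x (5 + i) := by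
    intro i; rw [evalF_two F x (by simp) (by simp)]; simp [mul_assoc]
  have e2' : ∀ i, evalF x (toF F [term 1 (0 :: (List.replicate i 1 ++ [4]))])
      = x 0 * x 1 ^ i * x 4 := by
    intro i; rw [evalF_one F x (by simp)]; simp [mul_assoc]
  have e3 : ∀ i, evalF x (toF F [term 1 [5 + i, 2],
      term (-1) (List.replicate (Y.a i) 1 ++ [5 + i])])
      = x (5 + i) * x 2 - x 1 ^ Y.a i * x (5 + i) := by
    intro i; rw [evalF_two F x (by simp) (by simp)]; simp
  have e4 : ∀ i, evalF x (toF F [term 1 [5 + i, 3],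
      term (-1) (List.replicate (Y.e i) 1 ++ [4, 3])])
      = x (5 + i) * x 3 - x 1 ^ Y.e i * x 4 * x 3 := by
    intro i; rw [evalF_two F x (by simp) (by simp)]; simp [mul_assoc]
  constructor
  · intro h
    refine ⟨?_, ?_, ?_, ?_, ?_⟩
    · have := h _ (by unfold relsCode; exact List.mem_cons_self)
      rw [e1] at this
      exact sub_eq_zero.1 this
    · intro i hi hH
      have := h [term 1 (0 :: (List.replicate i 1 ++ [4])), term (-1) [0, 5 + i]] (by
        unfold relsCode
        simp only [List.mem_cons, List.mem_append, List.mem_map, List.mem_range]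
        exact Or.inr (Or.inl (Or.inl ⟨i, hi, by simp [hH]⟩)))
      rw [e2] at this
      exact sub_eq_zero.1 this
    · intro i hi hH
      have := h [term 1 (0 :: (List.replicate i 1 ++ [4]))] (by
        unfold relsCode
        simp only [List.mem_cons, List.mem_append, List.mem_map, List.mem_range]
        exact Or.inr (Or.inl (Or.inl ⟨i, hi, by simp [hH]⟩)))
      rw [e2'] at this
      exact this
    · intro i hi
      have := h [term 1 [5 + i, 2], term (-1) (List.replicate (Y.a i) 1 ++ [5 + i])] (by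
        unfold relsCode
        simp only [List.mem_cons, List.mem_append, List.mem_map, List.mem_range]
        exact Or.inr (Or.inl (Or.inr ⟨i, hi, rfl⟩)))
      rw [e3] at this
      exact sub_eq_zero.1 this
    · intro i hi
      have := h [term 1 [5 + i, 3], term (-1) (List.replicate (Y.e i) 1 ++ [4, 3])] (by
        unfold relsCode
        simp only [List.mem_cons, List.mem_append, List.mem_map, List.mem_range]
        exact Or.inr (Or.inr ⟨i, hi, rfl⟩))
      rw [e4] at this
      exact sub_eq_zero.1 this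
  · intro h v hv
    unfold relsCode at hv
    simp only [List.mem_cons, List.mem_append, List.mem_map, List.mem_range] at hv
    rcases hv with rfl | (⟨i, hi, rfl⟩ | ⟨i, hi, rfl⟩) | ⟨i, hi, rfl⟩
    · rw [e1, h.R1, sub_self]
    · by_cases hH : Y.H i = true
      · rw [if_pos hH, e2', h.R2' i hi hH]
      · rw [if_neg hH, e2, h.R2 i hi (by simpa using hH), sub_self]
    · rw [e3, h.R3 i hi, sub_self]
    · rw [e4, h.R4 i hi, sub_self]

namespace Rels

variable {Y : Sys} {x : ℕ → B}

theorem transfer (h : Rels Y x) (r k : ℕ) :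
    x 1 ^ (Y.m * k + r) * x 4 = x 1 ^ r * x 4 * x 2 ^ k := by
  induction k with
  | zero => simp
  | succ k ih =>
    have e : Y.m * (k + 1) + r = (Y.m * k + r) + Y.m := by ring
    rw [e, pow_add, mul_assoc, h.R1, ← mul_assoc, ih, pow_succ, mul_assoc]

theorem back (h : Rels Y x) {i : ℕ} (hi : i < Y.m) (k : ℕ) :
    x (5 + i) * x 2 ^ k = x 1 ^ (Y.a i * k) * x (5 + i) := by
  induction k with
  | zero => simp
  | succ k ih =>
    rw [pow_succ, ← mul_assoc, ih, mul_assoc, h.R3 i hi, ← mul_assoc, ← pow_add, mul_add, mul_one]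

theorem sound (h : Rels Y x) (hm : 0 < Y.m) {N : ℕ} (hN : Y.Halts N) :
    x 0 * x 1 ^ N * x 4 * x 3 = 0 := by
  induction hN with
  | halt N hH =>
    have hlt : N % Y.m < Y.m := Nat.mod_lt _ hm
    have e := h.transfer (N % Y.m) (N / Y.m)
    rw [Nat.div_add_mod] at e
    rw [mul_assoc (x 0), e, ← mul_assoc, ← mul_assoc, h.R2' _ hlt hH, zero_mul, zero_mul]
  | step N hH _ ih =>
    have hlt : N % Y.m < Y.m := Nat.mod_lt _ hm
    have e := h.transfer (N % Y.m) (N / Y.m)
    rw [Nat.div_add_mod] at e
    rw [mul_assoc (x 0), e, ← mul_assoc, ← mul_assoc, h.R2 _ hlt hH, mul_assoc (x 0),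
      h.back hlt, mul_assoc (x 0), mul_assoc (x 1 ^ _), h.R4 _ hlt, ← mul_assoc, ← mul_assoc,
      ← mul_assoc, mul_assoc (x 0), ← pow_add]
    exact ih

end Rels

end unital

/-- For a halting number the quasi-identity holds in every associative algebra. -/
theorem quasi_of_halts {F : Type u} [Field F] (Y : Sys) (hm : 0 < Y.m) {N : ℕ} (hN : Y.Halts N)
    (A : Type u) [NonUnitalRing A] [Module F A] [IsScalarTower F A A] [SMulCommClass F A A] :
    Quasi F A (relsCode Y, target N) := by
  intro x hx
  let φ : A →ₙₐ[F] Unitization F A := Unitization.inrNonUnitalAlgHom F A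
  have hφ : Function.Injective φ := Unitization.inr_injective
  apply hφ
  have h1 : Rels Y (fun k => φ (x k)) := by
    rw [← rels_iff F]
    intro v hv
    rw [← map_evalF φ x, hx v hv, map_zero]
  rw [map_evalF φ x, eval_target, map_zero]
  exact h1.sound hm hN

end Q222.EP
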