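import Mathlib
import Pool.Agent.Q222.EP.Sound

/-!
Identities of matrix algebras and the standard identities on the algebra of the upper triangular
`4 × 4` matrices over a commutative ring whose first and last diagonal entries are equal
(respectively zero).
-/

namespace Q222.EP

universe u v w

section comm

variable {F : Type u} [Field F]

/-- identities pass to matrices over commutative algebras -/
theorem ident_comm [Infinite F] {n : ℕ} {f : List (F × ℕ × List ℕ)}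
    (hf : ∀ y : ℕ → Matrix (Fin n) (Fin n) F, evalF y f = 0)
    {C : Type v} [CommRing C] [Algebra F C] (y : ℕ → Matrix (Fin n) (Fin n) C) :
    evalF y f = 0 := by
  let Gm : ℕ → Matrix (Fin n) (Fin n) (MvPolynomial (ℕ × Fin n × Fin n) F) :=
    fun i => Matrix.of fun a b => MvPolynomial.X (i, a, b)
  have hQ : evalF Gm f = 0 := by
    ext1 a b
    apply MvPolynomial.funext
    intro z
    have h1 := map_evalF (((MvPolynomial.aeval z :
      MvPolynomial (ℕ × Fin n × Fin n) F →ₐ[F] F).mapMatrix (m := Fin n)) :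
        Matrix (Fin n) (Fin n) (MvPolynomial (ℕ × Fin n × Fin n) F) →ₙₐ[F]
          Matrix (Fin n) (Fin n) F) Gm f
    rw [hf] at h1
    have h2 := congrFun (congrFun h1 a) b
    rw [Matrix.zero_apply] at h2 ⊢
    rw [map_zero]
    exact h2
  have h3 := map_evalF (((MvPolynomial.aeval (fun t : ℕ × Fin n × Fin n =>
    y t.1 t.2.1 t.2.2) : MvPolynomial (ℕ × Fin n × Fin n) F →ₐ[F] C).mapMatrix (m := Fin n)) :
        Matrix (Fin n) (Fin n) (MvPolynomial (ℕ × Fin n × Fin n) F) →ₙₐ[F]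
          Matrix (Fin n) (Fin n) C) Gm f
  rw [hQ, map_zero] at h3
  rw [h3]
  congr 1
  funext i
  ext a b
  show _ = MvPolynomial.aeval _ (MvPolynomial.X (i, a, b))
  rw [MvPolynomial.aeval_X]

end comm

section tri

variable {C : Type v} [CommRing C]

/-- upper triangular `4 × 4` matrices with equal first and last diagonal entry -/
structure Tri (x : Matrix (Fin 4) (Fin 4) C) : Prop where
  l10 : x 1 0 = 0
  l20 : x 2 0 = 0
  l30 : x 3 0 = 0
  l21 : x 2 1 = 0
  l31 : x 3 1 = 0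
  l32 : x 3 2 = 0
  eq : x 3 3 = x 0 0

/-- A matrix over the dual numbers which represents a triangular matrix -/
structure Rl {n : ℕ} (X : Matrix (Fin (n + 3)) (Fin (n + 3)) (DualNumber C))
    (x : Matrix (Fin 4) (Fin 4) C) : Prop where
  z : ∀ i j : Fin (n + 3), (3 ≤ i.1 ∨ 3 ≤ j.1) → X i j = 0
  tri : Tri x
  f00 : (X 0 0).fst = x 0 0
  s00 : (X 0 0).snd = x 0 3
  f01 : (X 0 1).fst = x 0 1
  f02 : (X 0 2).fst = x 0 2
  f10 : (X 1 0).fst = 0
  s10 : (X 1 0).snd = x 1 3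
  f11 : (X 1 1).fst = x 1 1
  f12 : (X 1 2).fst = x 1 2
  f20 : (X 2 0).fst = 0
  s20 : (X 2 0).snd = x 2 3
  f21 : (X 2 1).fst = 0
  f22 : (X 2 2).fst = x 2 2

theorem sum3 {M : Type*} [AddCommMonoid M] {n : ℕ} (g : Fin (n + 3) → M)
    (h : ∀ k : Fin (n + 3), 3 ≤ k.1 → g k = 0) : ∑ k, g k = g 0 + g 1 + g 2 := by
  rw [Fin.sum_univ_succ, Fin.sum_univ_succ, Fin.sum_univ_succ]
  have : ∑ i : Fin n, g i.succ.succ.succ = 0 :=
    Finset.sum_eq_zero fun i _ => h _ (by simp)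
  rw [this, add_zero, ← add_assoc]
  rfl

theorem Rl.mul_apply {n : ℕ} {X Y : Matrix (Fin (n + 3)) (Fin (n + 3)) (DualNumber C)}
    {x : Matrix (Fin 4) (Fin 4) C} (h : Rl X x) (i j : Fin (n + 3)) :
    (X * Y) i j = X i 0 * Y 0 j + X i 1 * Y 1 j + X i 2 * Y 2 j := by
  rw [Matrix.mul_apply]
  apply sum3
  intro k hk
  rw [h.z i k (Or.inr hk), zero_mul]

theorem Tri.mul {x y : Matrix (Fin 4) (Fin 4) C} (hx : Tri x) (hy : Tri y) : Tri (x * y) := by
  constructor <;> simp [Matrix.mul_apply, Fin.sum_univ_four, hx.l10, hx.l20, hx.l30, hx.l21,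
    hx.l31, hx.l32, hx.eq, hy.l10, hy.l20, hy.l30, hy.l21, hy.l31, hy.l32, hy.eq]

theorem Tri.add {x y : Matrix (Fin 4) (Fin 4) C} (hx : Tri x) (hy : Tri y) : Tri (x + y) := by
  constructor <;> simp [hx.l10, hx.l20, hx.l30, hx.l21,
    hx.l31, hx.l32, hx.eq, hy.l10, hy.l20, hy.l30, hy.l21, hy.l31, hy.l32, hy.eq]

theorem Tri.zero : Tri (0 : Matrix (Fin 4) (Fin 4) C) := by
  constructor <;> simp

theorem Rl.zero {n : ℕ} : Rl (0 : Matrix (Fin (n + 3)) (Fin (n + 3)) (DualNumber C)) 0 := by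
  refine ⟨fun _ _ _ => rfl, Tri.zero, ?_, ?_, ?_, ?_, ?_, ?_, ?_, ?_, ?_, ?_, ?_, ?_⟩ <;> simp

theorem Rl.add {n : ℕ} {X Y : Matrix (Fin (n + 3)) (Fin (n + 3)) (DualNumber C)}
    {x y : Matrix (Fin 4) (Fin 4) C} (hX : Rl X x) (hY : Rl Y y) : Rl (X + Y) (x + y) := by
  refine ⟨fun i j h => by rw [Matrix.add_apply, hX.z i j h, hY.z i j h, add_zero],
    hX.tri.add hY.tri, ?_, ?_, ?_, ?_, ?_, ?_, ?_, ?_, ?_, ?_, ?_, ?_⟩ <;>
  simp [hX.f00, hX.s00, hX.f01, hX.f02, hX.f10, hX.s10, hX.f11, hX.f12, hX.f20, hX.s20, hX.f21,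
    hX.f22, hY.f00, hY.s00, hY.f01, hY.f02, hY.f10, hY.s10, hY.f11, hY.f12, hY.f20, hY.s20,
    hY.f21, hY.f22]

theorem Rl.mul {n : ℕ} {X Y : Matrix (Fin (n + 3)) (Fin (n + 3)) (DualNumber C)}
    {x y : Matrix (Fin 4) (Fin 4) C} (hX : Rl X x) (hY : Rl Y y) : Rl (X * Y) (x * y) := by
  have tx := hX.tri
  have ty := hY.tri
  refine ⟨fun i j h => ?_, hX.tri.mul hY.tri, ?_, ?_, ?_, ?_, ?_, ?_, ?_, ?_, ?_, ?_, ?_, ?_⟩
  · rw [hX.mul_apply]
    rcases h with h | h
    · rw [hX.z i 0 (Or.inl h), hX.z i 1 (Or.inl h), hX.z i 2 (Or.inl h)]; simp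
    · rw [hY.z 0 j (Or.inr h), hY.z 1 j (Or.inr h), hY.z 2 j (Or.inr h)]; simp
  all_goals
    rw [hX.mul_apply]
    simp only [TrivSqZeroExt.fst_add, TrivSqZeroExt.snd_add, TrivSqZeroExt.fst_mul,
      DualNumber.snd_mul, Matrix.mul_apply, Fin.sum_univ_four, hX.f00, hX.s00, hX.f01,
      hX.f02, hX.f10, hX.s10, hX.f11, hX.f12, hX.f20, hX.s20, hX.f21, hX.f22, hY.f00, hY.s00,
      hY.f01, hY.f02, hY.f10, hY.s10, hY.f11, hY.f12, hY.f20, hY.s20, hY.f21, hY.f22,
      tx.l10, tx.l20, tx.l21, ty.l10, ty.l20, ty.l30, ty.l21, ty.l31, ty.l32, ty.eq]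
    ring

/-- a matrix over the dual numbers representing a given triangular matrix -/
def lft (n : ℕ) (x : Matrix (Fin 4) (Fin 4) C) :
    Matrix (Fin (n + 3)) (Fin (n + 3)) (DualNumber C) := fun i j =>
  if i.1 = 0 ∧ j.1 = 0 then TrivSqZeroExt.inl (x 0 0) + TrivSqZeroExt.inr (x 0 3)
  else if i.1 = 0 ∧ j.1 = 1 then TrivSqZeroExt.inl (x 0 1)
  else if i.1 = 0 ∧ j.1 = 2 then TrivSqZeroExt.inl (x 0 2)
  else if i.1 = 1 ∧ j.1 = 0 then TrivSqZeroExt.inr (x 1 3)
  else if i.1 = 1 ∧ j.1 = 1 then TrivSqZeroExt.inl (x 1 1)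
  else if i.1 = 1 ∧ j.1 = 2 then TrivSqZeroExt.inl (x 1 2)
  else if i.1 = 2 ∧ j.1 = 0 then TrivSqZeroExt.inr (x 2 3)
  else if i.1 = 2 ∧ j.1 = 2 then TrivSqZeroExt.inl (x 2 2)
  else 0

theorem rl_lft (n : ℕ) {x : Matrix (Fin 4) (Fin 4) C} (hx : Tri x) : Rl (lft n x) x := by
  refine ⟨fun i j h => ?_, hx, ?_, ?_, ?_, ?_, ?_, ?_, ?_, ?_, ?_, ?_, ?_, ?_⟩
  · unfold lft
    rw [if_neg (by omega), if_neg (by omega), if_neg (by omega), if_neg (by omega),
      if_neg (by omega), if_neg (by omega), if_neg (by omega), if_neg (by omega)]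
  all_goals
    have h2 : 2 % (n + 3) = 2 := Nat.mod_eq_of_lt (by omega)
    simp [lft, h2]

end tri

section transfer

variable {F : Type u} [Field F] {C : Type v} [CommRing C] [Algebra F C]

theorem Rl.smul {n : ℕ} {X : Matrix (Fin (n + 3)) (Fin (n + 3)) (DualNumber C)}
    {x : Matrix (Fin 4) (Fin 4) C} (hX : Rl X x) (c : F) : Rl (c • X) (c • x) := by
  have tx := hX.tri
  refine ⟨fun i j h => by rw [Matrix.smul_apply, hX.z i j h, smul_zero],
    ⟨?_, ?_, ?_, ?_, ?_, ?_, ?_⟩, ?_, ?_, ?_, ?_, ?_, ?_, ?_, ?_, ?_, ?_, ?_, ?_⟩ <;>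
  simp [hX.f00, hX.s00, hX.f01, hX.f02, hX.f10, hX.s10, hX.f11, hX.f12, hX.f20, hX.s20, hX.f21,
    hX.f22, tx.l10, tx.l20, tx.l30, tx.l21, tx.l31, tx.l32, tx.eq]

theorem rl_word {n : ℕ} {X : ℕ → Matrix (Fin (n + 3)) (Fin (n + 3)) (DualNumber C)}
    {x : ℕ → Matrix (Fin 4) (Fin 4) C} (h : ∀ k, Rl (X k) (x k)) (i : ℕ) (w : List ℕ) :
    Rl (word X i w) (word x i w) := by
  unfold word
  have : ∀ S s, Rl S s → Rl (w.foldl (fun s j => s * X j) S) (w.foldl (fun s j => s * x j) s) := by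
    induction w with
    | nil => intro S s hs; exact hs
    | cons j w ih => intro S s hs; exact ih _ _ (hs.mul (h j))
  exact this _ _ (h i)

theorem rl_evalF {n : ℕ} {X : ℕ → Matrix (Fin (n + 3)) (Fin (n + 3)) (DualNumber C)}
    {x : ℕ → Matrix (Fin 4) (Fin 4) C} (h : ∀ k, Rl (X k) (x k)) (f : List (F × ℕ × List ℕ)) :
    Rl (evalF X f) (evalF x f) := by
  unfold evalF
  induction f with
  | nil => exact Rl.zero
  | cons t f ih =>
    simp only [List.map_cons, List.sum_cons]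
    exact ((rl_word h t.2.1 t.2.2).smul t.1).add ih

/-- The identities of the `n × n` matrices (`n ≥ 3`) hold for triangular `4 × 4` matrices with equal
first and last diagonal entry over commutative algebras. -/
theorem tri_ident [Infinite F] {n : ℕ} {f : List (F × ℕ × List ℕ)}
    (hf : ∀ y : ℕ → Matrix (Fin (n + 3)) (Fin (n + 3)) F, evalF y f = 0)
    (x : ℕ → Matrix (Fin 4) (Fin 4) C) (hx : ∀ k, Tri (x k)) : evalF x f = 0 := by
  have h1 : evalF (fun k => lft n (x k)) f = 0 := ident_comm hf _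
  have h2 := rl_evalF (F := F) (fun k => rl_lft n (hx k)) f
  rw [h1] at h2
  have t := h2.tri
  ext i j
  fin_cases i <;> fin_cases j
  · simpa using h2.f00.symm
  · simpa using h2.f01.symm
  · simpa using h2.f02.symm
  · simpa using h2.s00.symm
  · simpa using t.l10
  · simpa using h2.f11.symm
  · simpa using h2.f12.symm
  · simpa using h2.s10.symm
  · simpa using t.l20
  · simpa using t.l21
  · simpa using h2.f22.symm
  · simpa using h2.s20.symm
  · simpa using t.l30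
  · simpa using t.l31
  · simpa using t.l32
  · have := h2.f00
    simpa using t.eq.trans this.symm

end transfer

section std

variable {C : Type v} [CommRing C]

/-- the matrices with zero first and last diagonal entry -/
structure Tri0 (x : Matrix (Fin 4) (Fin 4) C) : Prop where
  tri : Tri x
  z : x 0 0 = 0

theorem comm_prod {x a b c d y : Matrix (Fin 4) (Fin 4) C} (hx : Tri0 x) (ha : Tri0 a)
    (hb : Tri0 b) (hc : Tri0 c) (hd : Tri0 d) (hy : Tri0 y) :
    x * (a * b - b * a) * (c * d - d * c) * y = 0 := by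
  have key : ∀ {a b : Matrix (Fin 4) (Fin 4) C}, Tri0 a → Tri0 b →
      (∀ i, (a * b - b * a) i 0 = 0) ∧ (a * b - b * a) 1 1 = 0 ∧ (a * b - b * a) 2 1 = 0 ∧
      (a * b - b * a) 3 1 = 0 ∧ (a * b - b * a) 2 2 = 0 ∧ (a * b - b * a) 3 2 = 0 ∧
      (a * b - b * a) 3 3 = 0 := by
    intro a b ha hb
    have t := ha.tri
    have t' := hb.tri
    refine ⟨fun i => ?_, ?_, ?_, ?_, ?_, ?_, ?_⟩
    · fin_cases i <;> simp [Matrix.mul_apply, Fin.sum_univ_four, t.l10, t.l20, t.l30, t'.l10,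
        t'.l20, t'.l30, ha.z, hb.z]
    all_goals
      simp [Matrix.mul_apply, Fin.sum_univ_four, t.l10, t.l20, t.l30, t'.l10, t'.l20, t'.l30,
        ha.z, hb.z, t.l21, t.l31, t.l32, t'.l21, t'.l31, t'.l32, t.eq, t'.eq, mul_comm]
  obtain ⟨k0, k11, k21, k31, k22, k32, k33⟩ := key ha hb
  obtain ⟨m0, m11, m21, m31, m22, m32, m33⟩ := key hc hd
  generalize a * b - b * a = u at *
  generalize c * d - d * c = w at *
  have tx := hx.tri
  have ty := hy.tri
  have ez := hx.z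
  have ey := hy.z
  have e1 : ∀ i j, j ≠ 3 → (x * u * w) i j = 0 := by
    intro i j hj
    fin_cases i <;> fin_cases j <;>
    simp [Matrix.mul_apply, Fin.sum_univ_four, tx.l10, tx.l20, tx.l30, tx.l21, tx.l31, tx.l32,
      tx.eq, ez, k0, k11, k21, k31, k22, k32, k33, m0, m11, m21, m31, m22, m32] at hj ⊢
  ext i j
  rw [Matrix.mul_apply, Fin.sum_univ_four, e1 i 0 (by decide), e1 i 1 (by decide),
    e1 i 2 (by decide)]
  have e2 : y 3 j = 0 := by
    fin_cases j
    · exact ty.l30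
    · exact ty.l31
    · exact ty.l32
    · exact ty.eq.trans ey
  rw [e2]
  simp

theorem prod1_eq {B : Type w} [Ring B] {l : List B} (hl : l ≠ []) : prod1 l = l.prod := by
  obtain ⟨a, l, rfl⟩ := List.exists_cons_of_ne_nil hl
  have : ∀ (l : List B) (a : B), l.foldl (fun s b => s * b) a = a * l.prod := by
    intro l
    induction l with
    | nil => intro a; simp
    | cons b l ih => intro a; simp only [List.foldl_cons, List.prod_cons]; rw [ih, mul_assoc]
  simp only [prod1, this, List.prod_cons]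

/-- the product of the values in the order `σ` -/
noncomputable def wv {n : ℕ} (x : Fin n → Matrix (Fin 4) (Fin 4) C) (σ : Equiv.Perm (Fin n)) :
    Matrix (Fin 4) (Fin 4) C := (List.ofFn fun i => x (σ i)).prod

/-- position `k` -/
def ps (n k : ℕ) (h : k < 6) : Fin (n + 6) := ⟨k, by omega⟩

theorem wv_eq {n : ℕ} (x : Fin (n + 6) → Matrix (Fin 4) (Fin 4) C)
    (σ : Equiv.Perm (Fin (n + 6))) :
    wv x σ = x (σ (ps n 0 (by omega))) * (x (σ (ps n 1 (by omega))) * x (σ (ps n 2 (by omega))))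
      * (x (σ (ps n 3 (by omega))) * x (σ (ps n 4 (by omega)))) * x (σ (ps n 5 (by omega)))
      * (List.ofFn fun i : Fin n => x (σ ⟨i.1 + 6, by omega⟩)).prod := by
  unfold wv
  rw [List.ofFn_succ, List.ofFn_succ, List.ofFn_succ, List.ofFn_succ, List.ofFn_succ,
    List.ofFn_succ]
  simp only [List.prod_cons, mul_assoc]
  rfl

theorem four_eq {n : ℕ} (x : Fin (n + 6) → Matrix (Fin 4) (Fin 4) C) (hx : ∀ i, Tri0 (x i))
    (σ : Equiv.Perm (Fin (n + 6))) :
    wv x σ - wv x (σ * Equiv.swap (ps n 1 (by omega)) (ps n 2 (by omega)))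
      - (wv x (σ * Equiv.swap (ps n 3 (by omega)) (ps n 4 (by omega)))
        - wv x (σ * Equiv.swap (ps n 3 (by omega)) (ps n 4 (by omega))
          * Equiv.swap (ps n 1 (by omega)) (ps n 2 (by omega)))) = 0 := by
  have hne : ∀ k l (hk : k < 6) (hl : l < 6), k ≠ l → ps n k hk ≠ ps n l hl := by
    intro k l hk hl h h'
    exact h (congrArg Fin.val h')
  have s1 : ∀ k (hk : k < 6), k ≠ 1 → k ≠ 2 →
      Equiv.swap (ps n 1 (by omega)) (ps n 2 (by omega)) (ps n k hk) = ps n k hk := by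
    intro k hk h1 h2
    exact Equiv.swap_apply_of_ne_of_ne (hne _ _ _ _ h1) (hne _ _ _ _ h2)
  have s2 : ∀ k (hk : k < 6), k ≠ 3 → k ≠ 4 →
      Equiv.swap (ps n 3 (by omega)) (ps n 4 (by omega)) (ps n k hk) = ps n k hk := by
    intro k hk h1 h2
    exact Equiv.swap_apply_of_ne_of_ne (hne _ _ _ _ h1) (hne _ _ _ _ h2)
  have t1 : ∀ i : Fin n, Equiv.swap (ps n 1 (by omega)) (ps n 2 (by omega))
      (⟨i.1 + 6, by omega⟩ : Fin (n + 6)) = ⟨i.1 + 6, by omega⟩ := by
    intro i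
    apply Equiv.swap_apply_of_ne_of_ne <;>
    · intro h
      have := congrArg Fin.val h
      simp [ps] at this
  have t2 : ∀ i : Fin n, Equiv.swap (ps n 3 (by omega)) (ps n 4 (by omega))
      (⟨i.1 + 6, by omega⟩ : Fin (n + 6)) = ⟨i.1 + 6, by omega⟩ := by
    intro i
    apply Equiv.swap_apply_of_ne_of_ne <;>
    · intro h
      have := congrArg Fin.val h
      simp [ps] at this
  simp only [wv_eq, Equiv.Perm.mul_apply, t1, t2, Equiv.swap_apply_left, Equiv.swap_apply_right]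
  rw [s1 0 (by omega) (by omega) (by omega), s1 3 (by omega) (by omega) (by omega),
    s1 4 (by omega) (by omega) (by omega), s1 5 (by omega) (by omega) (by omega),
    s2 0 (by omega) (by omega) (by omega), s2 1 (by omega) (by omega) (by omega),
    s2 2 (by omega) (by omega) (by omega), s2 5 (by omega) (by omega) (by omega),
    Equiv.swap_apply_left, Equiv.swap_apply_right]
  have key := comm_prod (hx (σ (ps n 0 (by omega)))) (hx (σ (ps n 1 (by omega))))
    (hx (σ (ps n 2 (by omega)))) (hx (σ (ps n 3 (by omega)))) (hx (σ (ps n 4 (by omega))))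
    (hx (σ (ps n 5 (by omega))))
  generalize x (σ (ps n 0 (by omega))) = x0 at *
  generalize x (σ (ps n 1 (by omega))) = x1 at *
  generalize x (σ (ps n 2 (by omega))) = x2 at *
  generalize x (σ (ps n 3 (by omega))) = x3 at *
  generalize x (σ (ps n 4 (by omega))) = x4 at *
  generalize x (σ (ps n 5 (by omega))) = x5 at *
  generalize (List.ofFn fun i : Fin n => x (σ ⟨i.1 + 6, by omega⟩)).prod = R at *
  calc _ = x0 * (x1 * x2 - x2 * x1) * (x3 * x4 - x4 * x3) * x5 * R := by noncomm_ring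
    _ = 0 := by rw [key, zero_mul]

theorem sum_swap {n : ℕ} {M : Type*} [AddCommGroup M] (w : Equiv.Perm (Fin n) → M)
    {i j : Fin n} (hij : i ≠ j) :
    (2 : ℕ) • ∑ σ : Equiv.Perm (Fin n), Equiv.Perm.sign σ • w σ
      = ∑ σ : Equiv.Perm (Fin n), Equiv.Perm.sign σ • (w σ - w (σ * Equiv.swap i j)) := by
  have h1 : ∑ σ : Equiv.Perm (Fin n), Equiv.Perm.sign σ • w σ
      = ∑ σ : Equiv.Perm (Fin n), Equiv.Perm.sign (σ * Equiv.swap i j) •
        w (σ * Equiv.swap i j) :=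
    (Equiv.sum_comp (Equiv.mulRight (Equiv.swap i j))
      (fun σ => Equiv.Perm.sign σ • w σ)).symm
  have h2 : ∀ σ : Equiv.Perm (Fin n), Equiv.Perm.sign (σ * Equiv.swap i j) •
      w (σ * Equiv.swap i j) = -(Equiv.Perm.sign σ • w (σ * Equiv.swap i j)) := by
    intro σ
    rw [Equiv.Perm.sign_mul, Equiv.Perm.sign_swap hij, mul_neg, mul_one, Units.neg_smul]
  rw [two_nsmul]
  nth_rewrite 2 [h1]
  rw [← Finset.sum_add_distrib]
  refine Finset.sum_congr rfl fun σ _ => ?_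
  rw [h2, smul_sub, sub_eq_add_neg]

/-- The standard identities of degree at least `6` for triangular matrices. -/
theorem tri_std [CharZero C] [IsDomain C] {n : ℕ} (hn : 6 ≤ n)
    (x : Fin n → Matrix (Fin 4) (Fin 4) C) (hx : ∀ i, Tri0 (x i)) : stdVal n x = 0 := by
  obtain ⟨k, rfl⟩ : ∃ k, n = k + 6 := ⟨n - 6, by omega⟩
  have e : stdVal (k + 6) x = ∑ σ : Equiv.Perm (Fin (k + 6)), Equiv.Perm.sign σ • wv x σ := by
    unfold stdVal wv
    refine Finset.sum_congr rfl fun σ _ => ?_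
    rw [prod1_eq (by simp)]
  rw [e]
  have h1 := sum_swap (wv x) (i := ps k 1 (by omega)) (j := ps k 2 (by omega)) (by
    intro h; exact absurd (congrArg Fin.val h) (by simp [ps]))
  have h2 := sum_swap (fun σ => wv x σ
    - wv x (σ * Equiv.swap (ps k 1 (by omega)) (ps k 2 (by omega))))
    (i := ps k 3 (by omega)) (j := ps k 4 (by omega)) (by
    intro h; exact absurd (congrArg Fin.val h) (by simp [ps]))
  rw [← h1] at h2
  have h3 : ∑ σ : Equiv.Perm (Fin (k + 6)), Equiv.Perm.sign σ • (wv x σ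
      - wv x (σ * Equiv.swap (ps k 1 (by omega)) (ps k 2 (by omega)))
      - (wv x (σ * Equiv.swap (ps k 3 (by omega)) (ps k 4 (by omega)))
        - wv x (σ * Equiv.swap (ps k 3 (by omega)) (ps k 4 (by omega))
          * Equiv.swap (ps k 1 (by omega)) (ps k 2 (by omega))))) = 0 := by
    refine Finset.sum_eq_zero fun σ _ => ?_
    rw [four_eq x hx σ, smul_zero]
  rw [h3] at h2
  have h4 : (4 : C) • ∑ σ : Equiv.Perm (Fin (k + 6)), Equiv.Perm.sign σ • wv x σ = 0 := by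
    rw [smul_smul] at h2
    have : (4 : C) = ((2 * 2 : ℕ) : C) := by norm_num
    rw [this, Nat.cast_smul_eq_nsmul]
    exact h2
  exact (smul_eq_zero.1 h4).resolve_left (by norm_num)

end std

end Q222.EP
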