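import Mathlib
import Pool.Agent.Q222.EP.Ident

/-!
The algebra which refutes the quasi-identity of a number that does not halt.
-/

namespace Q222.EP

open Pool.Agent.Helper707.Rel Finset MvPolynomial

universe u

section model

variable (F : Type u) [Field F] (Y : Sys)

/-- the ring of the entries -/
abbrev KK : Type u := MvPolynomial ℕ F

open Classical in
/-- indicator of the numbers which do not halt -/
noncomputable def cN (N : ℕ) : F := if Y.Halts N then 0 else 1

theorem cN_next (hm : 0 < Y.m) {i : ℕ} (hi : i < Y.m) (hH : Y.H i = false) (y : ℕ) :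
    cN F Y (Y.m * y + i) = cN F Y (0 + Y.a i * y + Y.e i) := by
  have h1 : (Y.m * y + i) % Y.m = i := by rw [Nat.mul_add_mod, Nat.mod_eq_of_lt hi]
  have h2 : (Y.m * y + i) / Y.m = y := by
    rw [Nat.mul_add_div hm, Nat.div_eq_of_lt hi, add_zero]
  have h3 : Y.next (Y.m * y + i) = 0 + Y.a i * y + Y.e i := by
    unfold Sys.next; rw [h1, h2, zero_add]
  have h4 : Y.Halts (Y.m * y + i) ↔ Y.Halts (Y.next (Y.m * y + i)) := by
    constructor
    · intro h
      cases h with
      | halt _ h => rw [h1, hH] at h; exact absurd h (by simp)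
      | step _ _ h => exact h
    · intro h
      exact Sys.Halts.step _ (by rw [h1]; exact hH) h
  rw [← h3]
  unfold cN
  by_cases h : Y.Halts (Y.m * y + i)
  · rw [if_pos h, if_pos (h4.1 h)]
  · rw [if_neg h, if_neg fun h' => h (h4.2 h')]

theorem cN_halt {i : ℕ} (hi : i < Y.m) (hH : Y.H i = true) (y : ℕ) :
    cN F Y (Y.m * y + i) = 0 := by
  have h1 : (Y.m * y + i) % Y.m = i := by rw [Nat.mul_add_mod, Nat.mod_eq_of_lt hi]
  unfold cN
  rw [if_pos (Sys.Halts.halt _ (by rw [h1]; exact hH))]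

/-- the values of the functional on the configurations -/
noncomputable def Cf (x y : ℕ) : ℕ → F
  | 0 => cN F Y (Y.m * y + x)
  | i + 1 => cN F Y (x + Y.a i * y + Y.e i)

/-- the values of the functional on the monomials -/
noncomputable def Wt (s : ℕ →₀ ℕ) : F :=
  ∑ j ∈ range (Y.m + 1), if s = Finsupp.single 0 (s 0) + Finsupp.single (j + 2) 1
    + Finsupp.single 1 (s 1) then Cf F Y (s 0) (s 1) j else 0

/-- the functional -/
noncomputable def Ph : KK F →ₗ[F] F := (MvPolynomial.basisMonomials ℕ F).constr F (Wt F Y)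

theorem Ph_mon (s : ℕ →₀ ℕ) : Ph F Y (monomial s 1) = Wt F Y s := by
  unfold Ph
  have := (MvPolynomial.basisMonomials ℕ F).constr_basis F (Wt F Y) s
  rwa [MvPolynomial.coe_basisMonomials] at this

theorem Ph_conf (x y j : ℕ) (hj : j < Y.m + 1) :
    Ph F Y (X 0 ^ x * X (j + 2) * X 1 ^ y) = Cf F Y x y j := by
  have e : (X 0 ^ x * X (j + 2) * X 1 ^ y : KK F)
      = monomial (Finsupp.single 0 x + Finsupp.single (j + 2) 1 + Finsupp.single 1 y) 1 := by
    rw [X_pow_eq_monomial, X_pow_eq_monomial, X, monomial_mul, monomial_mul]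
    simp
  rw [e, Ph_mon]
  unfold Wt
  have h0 : (Finsupp.single 0 x + Finsupp.single (j + 2) 1 + Finsupp.single 1 y : ℕ →₀ ℕ) 0 = x := by
    simp
  have h1 : (Finsupp.single 0 x + Finsupp.single (j + 2) 1 + Finsupp.single 1 y : ℕ →₀ ℕ) 1 = y := by
    simp
  rw [h0, h1, Finset.sum_eq_single j]
  · rw [if_pos rfl]
  · intro k _ hk
    rw [if_neg]
    intro h
    have := DFunLike.congr_fun h (k + 2)
    have hk' : ¬ j + 2 = k + 2 := by omega
    have hj0 : ¬ (0 : ℕ) = k + 2 := by omega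
    have hj1 : ¬ (1 : ℕ) = k + 2 := by omega
    simp [Finsupp.single_apply] at this
    omega
  · intro h
    exact absurd (Finset.mem_range.2 hj) h

/-- polynomials in the first variable -/
noncomputable def Ra : Subalgebra F (KK F) := (Polynomial.aeval (X 0 : KK F)).range

/-- polynomials in the second variable -/
noncomputable def Rb : Subalgebra F (KK F) := (Polynomial.aeval (X 1 : KK F)).range

theorem Xa_mem : (X 0 : KK F) ∈ Ra F := ⟨Polynomial.X, by simp⟩
theorem Xb_mem : (X 1 : KK F) ∈ Rb F := ⟨Polynomial.X, by simp⟩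

variable {F Y}

theorem Ph_left {k v : KK F} (h : ∀ x : ℕ, Ph F Y (X 0 ^ x * k * v) = 0) {r : KK F}
    (hr : r ∈ Ra F) : Ph F Y (r * k * v) = 0 := by
  obtain ⟨g, rfl⟩ := hr
  have : (Polynomial.aeval (X 0 : KK F)).toRingHom g = Polynomial.aeval (X 0 : KK F) g := rfl
  rw [this, Polynomial.aeval_eq_sum_range, Finset.sum_mul, Finset.sum_mul, map_sum]
  refine Finset.sum_eq_zero fun x _ => ?_
  rw [smul_mul_assoc, smul_mul_assoc, map_smul, h, smul_zero]

theorem Ph_right {k v : KK F} (h : ∀ y : ℕ, Ph F Y (v * k * X 1 ^ y) = 0) {r : KK F}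
    (hr : r ∈ Rb F) : Ph F Y (v * k * r) = 0 := by
  obtain ⟨g, rfl⟩ := hr
  have : (Polynomial.aeval (X 1 : KK F)).toRingHom g = Polynomial.aeval (X 1 : KK F) g := rfl
  rw [this, Polynomial.aeval_eq_sum_range, Finset.mul_sum, map_sum]
  refine Finset.sum_eq_zero fun x _ => ?_
  rw [mul_smul_comm, map_smul, h, smul_zero]

theorem Ph_both {k : KK F} (h : ∀ x y : ℕ, Ph F Y (X 0 ^ x * k * X 1 ^ y) = 0) {r s : KK F}
    (hr : r ∈ Ra F) (hs : s ∈ Rb F) : Ph F Y (r * k * s) = 0 :=
  Ph_left (fun x => Ph_right (fun y => h x y) hs) hr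

/-- the shape of the matrices -/
structure InB (x : Matrix (Fin 4) (Fin 4) (KK F)) : Prop where
  tri : Tri x
  s00 : x 0 0 ∈ (⊥ : Subalgebra F (KK F))
  a01 : x 0 1 ∈ Ra F
  a11 : x 1 1 ∈ Ra F
  b22 : x 2 2 ∈ Rb F
  b23 : x 2 3 ∈ Rb F

variable (F) in
/-- the algebra of the matrices of this shape -/
noncomputable def BB : Subalgebra F (Matrix (Fin 4) (Fin 4) (KK F)) where
  carrier := {x | InB x}
  mul_mem' := by
    intro x y hx hy
    have tx := hx.tri
    have ty := hy.tri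
    have ha : (⊥ : Subalgebra F (KK F)) ≤ Ra F := bot_le
    have hb : (⊥ : Subalgebra F (KK F)) ≤ Rb F := bot_le
    refine ⟨tx.mul ty, ?_, ?_, ?_, ?_, ?_⟩
    · simp only [Matrix.mul_apply, Fin.sum_univ_four, ty.l10, ty.l20, ty.l30, mul_zero, add_zero]
      exact mul_mem hx.s00 hy.s00
    · simp only [Matrix.mul_apply, Fin.sum_univ_four, ty.l21, ty.l31, mul_zero, add_zero]
      exact add_mem (mul_mem (ha hx.s00) hy.a01) (mul_mem hx.a01 hy.a11)
    · simp only [Matrix.mul_apply, Fin.sum_univ_four, tx.l10, ty.l21, ty.l31, mul_zero, add_zero,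
        zero_mul, zero_add]
      exact mul_mem hx.a11 hy.a11
    · simp only [Matrix.mul_apply, Fin.sum_univ_four, tx.l20, tx.l21, ty.l32, mul_zero, add_zero,
        zero_mul, zero_add]
      exact mul_mem hx.b22 hy.b22
    · simp only [Matrix.mul_apply, Fin.sum_univ_four, tx.l20, tx.l21, ty.eq, add_zero,
        zero_mul, zero_add]
      exact add_mem (mul_mem hx.b22 hy.b23) (mul_mem hx.b23 (hb hy.s00))
  add_mem' := by
    intro x y hx hy
    exact ⟨hx.tri.add hy.tri, add_mem hx.s00 hy.s00, add_mem hx.a01 hy.a01,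
      add_mem hx.a11 hy.a11, add_mem hx.b22 hy.b22, add_mem hx.b23 hy.b23⟩
  algebraMap_mem' := by
    intro r
    refine ⟨⟨?_, ?_, ?_, ?_, ?_, ?_, ?_⟩, ?_, ?_, ?_, ?_, ?_⟩ <;>
    simp only [Matrix.algebraMap_matrix_apply, if_true, Fin.isValue, Fin.reduceEq,
      if_false]
    · exact (⊥ : Subalgebra F (KK F)).algebraMap_mem r
    · exact (Ra F).zero_mem
    · exact (Ra F).algebraMap_mem r
    · exact (Rb F).algebraMap_mem r
    · exact (Rb F).zero_mem

theorem mem_BB {x : Matrix (Fin 4) (Fin 4) (KK F)} : x ∈ BB F ↔ InB x := Iff.rfl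

/-- the largest ideal in the kernel of a functional -/
def synt {B : Type*} [Ring B] [Algebra F B] (L : B →ₗ[F] F) : TwoSidedIdeal B :=
  TwoSidedIdeal.mk' {x | ∀ u v : B, L (u * x * v) = 0}
    (by intro u v; simp)
    (by
      intro x y hx hy u v
      rw [mul_add, add_mul, map_add, hx u v, hy u v, add_zero])
    (by
      intro x hx u v
      rw [mul_neg, neg_mul, map_neg, hx u v, neg_zero])
    (by
      intro x y hy u v
      rw [← mul_assoc u x y]
      exact hy (u * x) v)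
    (by
      intro x y hx u v
      rw [← mul_assoc u x y, mul_assoc (u * x) y v]
      exact hx u (y * v))

theorem mem_synt {B : Type*} [Ring B] [Algebra F B] {L : B →ₗ[F] F} {x : B} :
    x ∈ synt L ↔ ∀ u v : B, L (u * x * v) = 0 := by
  unfold synt
  rw [TwoSidedIdeal.mem_mk']
  rfl

variable (F Y) in
/-- the functional on matrices -/
noncomputable def LL : BB F →ₗ[F] F where
  toFun x := Ph F Y (x.1 0 3)
  map_add' x y := map_add (Ph F Y) (x.1 0 3) (y.1 0 3)
  map_smul' c x := map_smul (Ph F Y) c (x.1 0 3)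

variable (F Y) in
/-- the test algebra (with unit) -/
abbrev AA : Type u := (synt (LL F Y)).ringCon.Quotient

/-- the upper right entry of a product with a matrix with one nonzero entry -/
theorem corner12 (u v : BB F) (x : BB F) (k : KK F) (hx : x.1 = Matrix.single 1 2 k) :
    (u * x * v : BB F).1 0 3 = u.1 0 1 * k * v.1 2 3 := by
  have e : (u * x * v : BB F).1 = u.1 * x.1 * v.1 := rfl
  rw [e, hx]
  simp [Matrix.mul_apply, Fin.sum_univ_four, Matrix.single]

theorem corner02 (u v : BB F) (x : BB F) (k : KK F) (hx : x.1 = Matrix.single 0 2 k) :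
    (u * x * v : BB F).1 0 3 = u.1 0 0 * k * v.1 2 3 := by
  have e : (u * x * v : BB F).1 = u.1 * x.1 * v.1 := rfl
  rw [e, hx]
  simp [Matrix.mul_apply, Fin.sum_univ_four, Matrix.single]

theorem corner13 (u v : BB F) (x : BB F) (k : KK F) (hx : x.1 = Matrix.single 1 3 k) :
    (u * x * v : BB F).1 0 3 = u.1 0 1 * k * v.1 3 3 := by
  have e : (u * x * v : BB F).1 = u.1 * x.1 * v.1 := rfl
  rw [e, hx]
  simp [Matrix.mul_apply, Fin.sum_univ_four, Matrix.single]

theorem mem12 (x : BB F) (k : KK F) (hx : x.1 = Matrix.single 1 2 k)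
    (h : ∀ a b : ℕ, Ph F Y (X 0 ^ a * k * X 1 ^ b) = 0) : x ∈ synt (LL F Y) := by
  rw [mem_synt]
  intro u v
  show Ph F Y ((u * x * v : BB F).1 0 3) = 0
  rw [corner12 u v x k hx]
  exact Ph_both h u.2.a01 v.2.b23

theorem mem02 (x : BB F) (k : KK F) (hx : x.1 = Matrix.single 0 2 k)
    (h : ∀ b : ℕ, Ph F Y (k * X 1 ^ b) = 0) : x ∈ synt (LL F Y) := by
  rw [mem_synt]
  intro u v
  show Ph F Y ((u * x * v : BB F).1 0 3) = 0
  rw [corner02 u v x k hx]
  obtain ⟨c, hc⟩ := Algebra.mem_bot.1 u.2.s00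
  rw [← hc, mul_assoc, ← Algebra.smul_def, map_smul]
  have := Ph_right (Y := Y) (k := k) (v := 1) (fun y => by rw [one_mul]; exact h y) v.2.b23
  rw [one_mul] at this
  rw [this, smul_zero]

theorem mem13 (x : BB F) (k : KK F) (hx : x.1 = Matrix.single 1 3 k)
    (h : ∀ a : ℕ, Ph F Y (X 0 ^ a * k) = 0) : x ∈ synt (LL F Y) := by
  rw [mem_synt]
  intro u v
  show Ph F Y ((u * x * v : BB F).1 0 3) = 0
  rw [corner13 u v x k hx, v.2.tri.eq]
  obtain ⟨c, hc⟩ := Algebra.mem_bot.1 v.2.s00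
  rw [← hc, mul_comm, ← Algebra.smul_def, map_smul]
  have := Ph_left (Y := Y) (k := k) (v := 1) (fun y => by rw [mul_one]; exact h y) u.2.a01
  rw [mul_one] at this
  rw [this, smul_zero]

/-! ### The generators -/

variable (F) in
/-- the matrix of the generator with index `k` -/
noncomputable def gm : ℕ → Matrix (Fin 4) (Fin 4) (KK F)
  | 0 => Matrix.single 0 1 1
  | 1 => Matrix.single 1 1 (X 0)
  | 2 => Matrix.single 2 2 (X 1)
  | 3 => Matrix.single 2 3 1
  | j + 4 => Matrix.single 1 2 (X (j + 2))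

theorem gm_mem (k : ℕ) : InB (gm F k) := by
  have h1 := Xa_mem F
  have h2 := Xb_mem F
  match k with
  | 0 =>
    refine ⟨⟨?_, ?_, ?_, ?_, ?_, ?_, ?_⟩, ?_, ?_, ?_, ?_, ?_⟩ <;> simp [gm, Matrix.single]
  | 1 =>
    refine ⟨⟨?_, ?_, ?_, ?_, ?_, ?_, ?_⟩, ?_, ?_, ?_, ?_, ?_⟩ <;> simp [gm, Matrix.single, h1]
  | 2 =>
    refine ⟨⟨?_, ?_, ?_, ?_, ?_, ?_, ?_⟩, ?_, ?_, ?_, ?_, ?_⟩ <;> simp [gm, Matrix.single, h2]
  | 3 =>
    refine ⟨⟨?_, ?_, ?_, ?_, ?_, ?_, ?_⟩, ?_, ?_, ?_, ?_, ?_⟩ <;> simp [gm, Matrix.single]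
  | j + 4 =>
    refine ⟨⟨?_, ?_, ?_, ?_, ?_, ?_, ?_⟩, ?_, ?_, ?_, ?_, ?_⟩ <;> simp [gm, Matrix.single]

theorem gm_zero (k : ℕ) : gm F k 0 0 = 0 := by
  match k with
  | 0 => simp [gm, Matrix.single]
  | 1 => simp [gm, Matrix.single]
  | 2 => simp [gm, Matrix.single]
  | 3 => simp [gm, Matrix.single]
  | j + 4 => simp [gm, Matrix.single]

variable (F) in
/-- the generators -/
noncomputable def gB (k : ℕ) : BB F := ⟨gm F k, gm_mem k⟩

variable (F Y) in
/-- the projection -/
noncomputable def pr : BB F →+* AA F Y := (synt (LL F Y)).ringCon.mk'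

theorem pr_eq {x y : BB F} (h : x - y ∈ synt (LL F Y)) : pr F Y x = pr F Y y :=
  (RingCon.eq _).2 ((TwoSidedIdeal.rel_iff _ _ _).2 h)

theorem pr_zero {x : BB F} : pr F Y x = 0 ↔ x ∈ synt (LL F Y) := by
  rw [← TwoSidedIdeal.mem_ker, pr, TwoSidedIdeal.ker_ringCon_mk']

theorem sgl_sub (i j : Fin 4) (a b : KK F) :
    (Matrix.single i j a : Matrix (Fin 4) (Fin 4) (KK F)) - Matrix.single i j b
      = Matrix.single i j (a - b) := by
  ext k l
  simp only [Matrix.sub_apply, Matrix.single_apply]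
  split_ifs <;> simp

theorem pow_mul_single (a t : KK F) (n : ℕ) (j : Fin 4) :
    (Matrix.single 1 1 a : Matrix (Fin 4) (Fin 4) (KK F)) ^ n * Matrix.single 1 j t
      = Matrix.single 1 j (a ^ n * t) := by
  induction n with
  | zero => simp
  | succ n ih =>
    rw [pow_succ', mul_assoc, ih, Matrix.single_mul_single_same, pow_succ', mul_assoc]

theorem rels_AA (hm : 0 < Y.m) : Rels Y (fun k => pr F Y (gB F k)) := by
  refine ⟨?_, ?_, ?_, ?_, ?_⟩
  · rw [← map_pow, ← map_mul, ← map_mul]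
    apply pr_eq
    apply mem12 _ (X 0 ^ Y.m * X 2 - X 2 * X 1)
    · show gm F 1 ^ Y.m * gm F 4 - gm F 4 * gm F 2 = _
      simp only [gm]
      rw [pow_mul_single, Matrix.single_mul_single_same, sgl_sub]
    · intro a b
      have e : (X 0 ^ a * (X 0 ^ Y.m * X 2 - X 2 * X 1) * X 1 ^ b : KK F)
          = X 0 ^ (a + Y.m) * X (0 + 2) * X 1 ^ b - X 0 ^ a * X (0 + 2) * X 1 ^ (b + 1) := by
        rw [zero_add]; ring
      rw [e, map_sub, Ph_conf F Y _ _ 0 (by omega), Ph_conf F Y _ _ 0 (by omega), sub_eq_zero]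
      simp only [Cf]
      congr 1
      ring
  · intro i hi hH
    rw [← map_pow, ← map_mul, ← map_mul, ← map_mul]
    apply pr_eq
    apply mem02 _ (X 0 ^ i * X 2 - X (i + 1 + 2))
    · show gm F 0 * gm F 1 ^ i * gm F 4 - gm F 0 * gm F (5 + i) = _
      have e : 5 + i = (i + 1) + 4 := by omega
      rw [e]
      simp only [gm]
      rw [mul_assoc, pow_mul_single, Matrix.single_mul_single_same,
        Matrix.single_mul_single_same, sgl_sub, one_mul, one_mul]
    · intro b
      have e : ((X 0 ^ i * X 2 - X (i + 1 + 2)) * X 1 ^ b : KK F)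
          = X 0 ^ i * X (0 + 2) * X 1 ^ b - X 0 ^ 0 * X (i + 1 + 2) * X 1 ^ b := by
        rw [zero_add, pow_zero, one_mul]; ring
      rw [e, map_sub, Ph_conf F Y _ _ 0 (by omega), Ph_conf F Y _ _ (i + 1) (by omega),
        sub_eq_zero]
      simp only [Cf]
      exact cN_next F Y hm hi hH b
  · intro i hi hH
    rw [← map_pow, ← map_mul, ← map_mul]
    rw [pr_zero]
    apply mem02 _ (X 0 ^ i * X 2)
    · show gm F 0 * gm F 1 ^ i * gm F 4 = _
      simp only [gm]
      rw [mul_assoc, pow_mul_single, Matrix.single_mul_single_same, one_mul]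
    · intro b
      have e : (X 0 ^ i * X 2 * X 1 ^ b : KK F) = X 0 ^ i * X (0 + 2) * X 1 ^ b := by
        rw [zero_add]
      rw [e, Ph_conf F Y _ _ 0 (by omega)]
      simp only [Cf]
      exact cN_halt F Y hi hH b
  · intro i hi
    rw [← map_pow, ← map_mul, ← map_mul]
    apply pr_eq
    apply mem12 _ (X (i + 1 + 2) * X 1 - X 0 ^ Y.a i * X (i + 1 + 2))
    · show gm F (5 + i) * gm F 2 - gm F 1 ^ Y.a i * gm F (5 + i) = _
      have e : 5 + i = (i + 1) + 4 := by omega
      rw [e]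
      simp only [gm]
      rw [pow_mul_single, Matrix.single_mul_single_same, sgl_sub]
    · intro a b
      have e : (X 0 ^ a * (X (i + 1 + 2) * X 1 - X 0 ^ Y.a i * X (i + 1 + 2)) * X 1 ^ b : KK F)
          = X 0 ^ a * X (i + 1 + 2) * X 1 ^ (b + 1)
            - X 0 ^ (a + Y.a i) * X (i + 1 + 2) * X 1 ^ b := by ring
      rw [e, map_sub, Ph_conf F Y _ _ (i + 1) (by omega), Ph_conf F Y _ _ (i + 1) (by omega),
        sub_eq_zero]
      simp only [Cf]
      congr 1
      ring
  · intro i hi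
    rw [← map_pow, ← map_mul, ← map_mul, ← map_mul]
    apply pr_eq
    apply mem13 _ (X (i + 1 + 2) - X 0 ^ Y.e i * X 2)
    · show gm F (5 + i) * gm F 3 - gm F 1 ^ Y.e i * gm F 4 * gm F 3 = _
      have e : 5 + i = (i + 1) + 4 := by omega
      rw [e]
      simp only [gm]
      rw [pow_mul_single, Matrix.single_mul_single_same, Matrix.single_mul_single_same,
        sgl_sub, mul_one, mul_one]
    · intro a
      have e : (X 0 ^ a * (X (i + 1 + 2) - X 0 ^ Y.e i * X 2) : KK F)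
          = X 0 ^ a * X (i + 1 + 2) * X 1 ^ 0 - X 0 ^ (a + Y.e i) * X (0 + 2) * X 1 ^ 0 := by
        rw [zero_add, pow_zero]; ring
      rw [e, map_sub, Ph_conf F Y _ _ (i + 1) (by omega), Ph_conf F Y _ _ 0 (by omega),
        sub_eq_zero]
      simp only [Cf]
      congr 1
      ring

theorem target_AA {N : ℕ} (hN : ¬ Y.Halts N) :
    pr F Y (gB F 0) * pr F Y (gB F 1) ^ N * pr F Y (gB F 4) * pr F Y (gB F 3) ≠ 0 := by
  rw [← map_pow, ← map_mul, ← map_mul, ← map_mul, Ne, pr_zero, mem_synt]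
  intro h
  have h1 := h 1 1
  rw [one_mul, mul_one] at h1
  have h2 : Ph F Y ((gm F 0 * gm F 1 ^ N * gm F 4 * gm F 3) 0 3) = 0 := h1
  simp only [gm] at h2
  rw [mul_assoc (Matrix.single 0 1 1), pow_mul_single, Matrix.single_mul_single_same,
    Matrix.single_mul_single_same, one_mul, mul_one, Matrix.single_apply_same] at h2
  have e : (X 0 ^ N * X (0 + 2) : KK F) = X 0 ^ N * X (0 + 2) * X 1 ^ 0 := by
    rw [pow_zero, mul_one]
  rw [e, Ph_conf F Y _ _ 0 (by omega)] at h2
  simp only [Cf, mul_zero, zero_add] at h2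
  unfold cN at h2
  rw [if_neg hN] at h2
  exact one_ne_zero h2

end model

end Q222.EP
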