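import Mathlib
import Pool.Agent.Q222.EP.Model

/-!
The test algebra belongs to the varieties `M(n)`, `n ≥ 3`, and `S(n)`, `n ≥ 6`, and the
undecidability of the equality problem.
-/

namespace Q222.EP

open Pool.Agent.Helper707.Rel Finset

universe u

section

variable {F : Type u} [Field F] {Y : Sys}

variable (F Y) in
/-- the projection as a homomorphism of algebras without unit -/
noncomputable def prA : BB F →ₙₐ[F] AA F Y where
  toFun := pr F Y
  map_smul' _ _ := rfl
  map_zero' := map_zero _
  map_add' := map_add _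
  map_mul' := map_mul _

variable (F Y) in
/-- the test algebra -/
noncomputable def A0 : NonUnitalSubalgebra F (AA F Y) where
  carrier := {a | ∃ X : BB F, X.1 0 0 = 0 ∧ prA F Y X = a}
  mul_mem' := by
    rintro _ _ ⟨X, hX, rfl⟩ ⟨Z, hZ, rfl⟩
    refine ⟨X * Z, ?_, map_mul _ _ _⟩
    show (X.1 * Z.1) 0 0 = 0
    simp [Matrix.mul_apply, Fin.sum_univ_four, hX, Z.2.tri.l10, Z.2.tri.l20, Z.2.tri.l30]
  add_mem' := by
    rintro _ _ ⟨X, hX, rfl⟩ ⟨Z, hZ, rfl⟩
    refine ⟨X + Z, ?_, map_add _ _ _⟩
    show (X.1 + Z.1) 0 0 = 0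
    simp [hX, hZ]
  zero_mem' := ⟨0, rfl, map_zero _⟩
  smul_mem' := by
    rintro c _ ⟨X, hX, rfl⟩
    refine ⟨c • X, ?_, map_smul _ _ _⟩
    show (c • X.1) 0 0 = 0
    simp [hX]

/-- the inclusion of the test algebra -/
noncomputable def inc : A0 F Y →ₙₐ[F] AA F Y := NonUnitalSubalgebraClass.subtype (A0 F Y)

theorem inc_inj : Function.Injective (inc : A0 F Y →ₙₐ[F] AA F Y) := Subtype.val_injective

/-- the inclusion of the algebra of matrices -/
noncomputable def incB : BB F →ₙₐ[F] Matrix (Fin 4) (Fin 4) (KK F) := (BB F).val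

theorem incB_inj : Function.Injective (incB : BB F →ₙₐ[F] _) := Subtype.val_injective

theorem inM_A0 [Infinite F] {n : ℕ} (hn : 3 ≤ n) : InM F n (A0 F Y) := by
  obtain ⟨k, rfl⟩ : ∃ k, n = k + 3 := ⟨n - 3, by omega⟩
  intro f hf x
  choose X hX hX' using fun i => (x i).2
  apply inc_inj
  rw [map_evalF, map_zero]
  have h1 : (fun i => inc (F := F) (Y := Y) (x i)) = fun i => prA F Y (X i) :=
    funext fun i => (hX' i).symm
  rw [h1, ← map_evalF]
  have h2 : evalF X f = 0 := by
    apply incB_inj
    rw [map_evalF, map_zero]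
    exact tri_ident hf _ fun i => (X i).2.tri
  rw [h2, map_zero]

theorem map_prod1 {A : Type*} [NonUnitalRing A] [Module F A] {B : Type*} [NonUnitalRing B]
    [Module F B] (φ : A →ₙₐ[F] B) (l : List A) : φ (prod1 l) = prod1 (l.map φ) := by
  cases l with
  | nil => exact map_zero φ
  | cons a l =>
    simp only [prod1, List.map_cons]
    induction l generalizing a with
    | nil => rfl
    | cons b l ih => simp only [List.foldl_cons, List.map_cons]; rw [ih, map_mul]

theorem map_stdVal {A : Type*} [NonUnitalRing A] [Module F A] {B : Type*} [NonUnitalRing B]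
    [Module F B] (φ : A →ₙₐ[F] B) (n : ℕ) (x : Fin n → A) :
    φ (stdVal n x) = stdVal n (fun i => φ (x i)) := by
  unfold stdVal
  rw [map_sum]
  refine Finset.sum_congr rfl fun σ _ => ?_
  rcases Int.units_eq_one_or (Equiv.Perm.sign σ) with h | h
  · rw [h, one_smul, one_smul, map_prod1, List.map_ofFn]
    rfl
  · rw [h, Units.neg_smul, Units.neg_smul, one_smul, one_smul, map_neg, map_prod1, List.map_ofFn]
    rfl

theorem inS_A0 [CharZero F] {n : ℕ} (hn : 6 ≤ n) : InS n (A0 F Y) := by
  intro x
  choose X hX hX' using fun i => (x i).2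
  apply inc_inj
  rw [map_stdVal, map_zero]
  have h1 : (fun i => inc (F := F) (Y := Y) (x i)) = fun i => prA F Y (X i) :=
    funext fun i => (hX' i).symm
  rw [h1, ← map_stdVal]
  have h2 : stdVal n X = 0 := by
    apply incB_inj
    rw [map_stdVal, map_zero]
    exact tri_std hn _ fun i => ⟨(X i).2.tri, hX i⟩
  rw [h2, map_zero]

theorem not_quasi {N : ℕ} (hm : 0 < Y.m) (hN : ¬ Y.Halts N) :
    ¬ Quasi F (A0 F Y) (relsCode Y, target N) := by
  intro h
  let x : ℕ → A0 F Y := fun k => ⟨prA F Y (gB F k), gB F k, gm_zero k, rfl⟩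
  have h1 := h x (by
    intro v hv
    apply inc_inj
    rw [map_evalF, map_zero]
    exact (rels_iff F Y (fun k => pr F Y (gB F k))).2 (rels_AA hm) v hv)
  have h2 := congrArg (inc (F := F) (Y := Y)) h1
  rw [map_evalF, map_zero] at h2
  have h3 : evalF (fun k => pr F Y (gB F k)) (toF F (target N)) = 0 := h2
  rw [eval_target] at h3
  exact target_AA hN h3

end

theorem primrec_target : Primrec target := by
  have h1 : Primrec fun N : ℕ => List.replicate N 1 := by
    have h2 : Primrec fun N : ℕ => (List.range N).map fun _ => 1 :=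
      Primrec.list_map Primrec.list_range (Primrec.const 1).to₂
    refine h2.of_eq fun N => ?_
    rw [List.map_const', List.length_range]
  have h2 : Primrec fun N : ℕ => List.replicate N 1 ++ [4, 3] :=
    Primrec.list_append.comp h1 (Primrec.const _)
  have h3 : Primrec fun N : ℕ => (((1 : ℤ), 0), 0, List.replicate N 1 ++ [4, 3]) :=
    Primrec.pair (Primrec.const _) (Primrec.pair (Primrec.const _) h2)
  have h4 : Primrec fun N : ℕ => [(((1 : ℤ), 0), 0, List.replicate N 1 ++ [4, 3])] :=
    Primrec.list_cons.comp h3 (Primrec.const [])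
  exact h4.of_eq fun N => rfl

/-- the reduction -/
theorem undec (P : (List Poly × Poly) → Prop)
    (h : ∀ (Y : Sys), 0 < Y.m → ∀ N, P (relsCode Y, target N) ↔ Y.Halts N) :
    ¬ ComputablePred P := by
  obtain ⟨Y, S, p, hm, hund⟩ := Pool.Agent.Helper707.Num.exists_undecidable_sys
  intro hc
  apply hund
  obtain ⟨d, hd, hdp⟩ := ComputablePred.computable_iff.1 hc
  have hpow : Primrec fun k : ℕ => S * p ^ k := by
    have h1 : Primrec fun k : ℕ => p ^ k := by
      have h2 : Primrec (Nat.rec (motive := fun _ => ℕ) 1 (fun _ ih => ih * p)) :=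
        Primrec.nat_rec₁ 1 (Primrec.nat_mul.comp Primrec.snd (Primrec.const p))
      refine h2.of_eq fun k => ?_
      induction k with
      | zero => rfl
      | succ k ih => rw [pow_succ, ← ih]
    exact Primrec.nat_mul.comp (Primrec.const S) h1
  have hgl : Computable fun k : ℕ => ((relsCode Y, target (S * p ^ k)) : List Poly × Poly) :=
    (Primrec.pair (Primrec.const (relsCode Y)) (primrec_target.comp hpow)).to_comp
  rw [ComputablePred.computable_iff]
  refine ⟨fun k => d (relsCode Y, target (S * p ^ k)), hd.comp hgl, ?_⟩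
  funext k
  have h3 := congrFun hdp (relsCode Y, target (S * p ^ k))
  rw [← h3]
  exact propext (h Y hm _).symm

end Q222.EP
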